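import Pool.Agent.Helper70.SUB.SheetW

/-!
Project SUBW, row T1W: both integers are sums of S-units with small integral coefficients.
-/

set_option autoImplicit false

namespace Pool.Agent.Helper72.SUBW

open Filter Finset Pool.Agent.Helper70.SUB Pool.Agent.Helper77.SUBK Pool.Agent.Helper70.SUBL
open Pool.Agent.Helper70.SUBW

/-- small integral coefficients are slow -/
theorem slow_of_le (hSLW : ST_SLW) {M : Type} [Field M] [NumberField M] [IsGalois ℚ M]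
    {S : Finset ℕ} (P : PF S M) (φ : Ultrafilter ℕ) (X : ℕ → ℝ) (hS : ∀ p ∈ S, p.Prime)
    (hX : Tendsto X (φ : Filter ℕ) atTop) (hX1 : ∀ j, 1 ≤ X j)
    (hκ : ∀ κ : ℝ, 0 < κ → ∀ᶠ j : ℕ in (φ : Filter ℕ), 1 / ((j : ℝ) + 1) ≤ κ)
    (c : ℕ → ℤ) (hc : ∀ j : ℕ, |(c j : ℝ)| ≤ X j ^ (1 / ((j : ℝ) + 1))) :
    Slw P φ X (fun j => (c j : M)) := by
  refine (hSLW M S P φ X hS hX).2.2.2.2.2.2.2.2.2.1 c fun ε hε => ?_
  filter_upwards [hκ ε hε] with j hj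
  exact (hc j).trans (Real.rpow_le_rpow_of_exponent_le (hX1 j) hj)

/-- **Row T1W.** -/
theorem T1W (hEXTW : ST_EXTW) (hSLW : ST_SLW) (hMAINW : ST_MAINW) (hPFX : ST_PFX) : ST_T1W := by
  intro M _ _ _ S t ε hS hε
  by_contra hcon
  obtain ⟨s, φ, hX, hs, hκ⟩ := hEXTW
    ((Fin t → ℤ) × (Fin t → ℤ) × (Fin t → M) × (Fin t → M) × ℤ × ℤ)
    (fun κ b => (∀ i, SV S (b.2.2.1 i)) ∧ (∀ i, SV S (b.2.2.2.1 i)) ∧
      (∀ i, |(b.1 i : ℝ)| ≤ |(b.2.2.2.2.1 : ℝ)| ^ κ) ∧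
      (∀ i, |(b.2.1 i : ℝ)| ≤ |(b.2.2.2.2.1 : ℝ)| ^ κ) ∧
      ∑ i, (b.1 i : M) * b.2.2.1 i = (b.2.2.2.2.1 : M) ∧
      ∑ i, (b.2.1 i : M) * b.2.2.2.1 i = (b.2.2.2.2.2 : M) ∧
      b.2.2.2.2.2 ^ 2 ≠ b.2.2.2.2.1 ^ 3)
    (fun b => b.2.2.2.2.1) (fun b => b.2.2.2.2.2 ^ 2 - b.2.2.2.2.1 ^ 3) ε hε
    (fun κ b hb => sub_ne_zero.2 hb.2.2.2.2.2.2)
    (fun h => hcon (by
      obtain ⟨κ, hκ, C, hC⟩ := h
      exact ⟨κ, hκ, C, fun c d a b x y h1 h2 h3 h4 h5 h6 h7 =>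
        hC (c, d, a, b, x, y) ⟨h1, h2, h3, h4, h5, h6, h7⟩⟩))
  obtain ⟨P⟩ := hPFX M S hS
  have hX1 : ∀ j, 1 ≤ |((s j).2.2.2.2.1 : ℝ)| := fun j => (hs j).2.1
  refine hMAINW M S P φ (fun j => (s j).2.2.2.2.1) (fun j => (s j).2.2.2.2.2) ε hS hε hX ?_ ?_ ?_
  · refine ⟨t, fun i j => (((s j).1 i : ℤ) : M), fun i j => (s j).2.2.1 i, fun i => ?_, fun i => ?_,
      ?_⟩
    · exact slow_of_le hSLW P φ _ hS hX hX1 hκ (fun j => (s j).1 i) fun j => (hs j).1.2.2.1 i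
    · exact Eventually.of_forall fun j => (hs j).1.1 i
    · exact Eventually.of_forall fun j => (hs j).1.2.2.2.2.1
  · refine ⟨t, fun i j => (((s j).2.1 i : ℤ) : M), fun i j => (s j).2.2.2.1 i, fun i => ?_,
      fun i => ?_, ?_⟩
    · exact slow_of_le hSLW P φ _ hS hX hX1 hκ (fun j => (s j).2.1 i) fun j => (hs j).1.2.2.2.1 i
    · exact Eventually.of_forall fun j => (hs j).1.2.1 i
    · exact Eventually.of_forall fun j => (hs j).1.2.2.2.2.2.1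
  · exact Eventually.of_forall fun j => ⟨(hs j).1.2.2.2.2.2.2, (hs j).2.2⟩

end Pool.Agent.Helper72.SUBW
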